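import Mathlib
import Pool.Agent.H74.SC18

set_option autoImplicit false

namespace Pool.Agent.Results.MP_88597d_gt.CyclicCover

open Set Topology ContinuousMap FundamentalGroup

/-- Y is dominated by a CW complex of finite type: it is a homotopy retract of a Hausdorff CW
complex K with finitely many cells in each dimension. -/
def FTDom (Y : Type) [TopologicalSpace Y] : Prop :=
  ∃ (K : Type) (_ : TopologicalSpace K) (_ : T2Space K) (_ : CWComplex (univ : Set K)),
    RelCWComplex.FiniteType (univ : Set K) ∧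
    ∃ (i : C(Y, K)) (r : C(K, Y)), (r.comp i).Homotopic (ContinuousMap.id Y)

theorem result : ∃ (X : Type) (_ : TopologicalSpace X) (_ : T2Space X)
    (_ : CWComplex (univ : Set X)) (x₀ : X) (φ : FundamentalGroup X x₀ →* Multiplicative ℤ)
    (X₂ : Type) (_ : TopologicalSpace X₂) (p : C(X₂, X)) (h : X ≃ₕ X₂) (hp : p (h x₀) = x₀)
    (X' : Type) (_ : TopologicalSpace X') (q : C(X', X)) (x' : X') (hq : q x' = x₀),
    RelCWComplex.Finite (univ : Set X) ∧ PathConnectedSpace X ∧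
    Function.Surjective φ ∧ Group.IsFinitelyPresented φ.ker ∧
    PathConnectedSpace X₂ ∧ IsCoveringMap p ∧
    (∀ g, g ∈ (mapOfEq p hp).range ↔ 2 ∣ Multiplicative.toAdd (φ g)) ∧
    φ.ker.map (mapOfEq (p.comp h.toFun) hp) = φ.ker ∧
    PathConnectedSpace X' ∧ IsCoveringMap q ∧ (mapOfEq q hq).range = φ.ker ∧ ¬FTDom X' := by
  obtain ⟨X, _, _, c, x₀, φ, X₂, _, p, h, hp, X', _, q, x', hq, f1, f2, f3, f4, a1, a2, a3, a4, -,
    a5, a6, a7, a8⟩ := H74.SC.main
  exact ⟨X, _, inferInstance, c, x₀, φ, X₂, _, p, h, hp, X', _, q, x', hq, f1, f2, a1, a2, f3, a3,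
    H74.SC.rng p hp a5, H74.SC.ker_map φ p h hp a5 a7, f4, a4,
    Subgroup.ext (H74.SC.rng q hq (P := fun g => φ g = 1) a6),
    fun ⟨K, _, _, _, _, i, r, e⟩ => a8 K i r e⟩

end Pool.Agent.Results.MP_88597d_gt.CyclicCover
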